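import Pool.Agent.Helper92_TDE.Val

/-!
# TDE modules SRG and CONV
-/

set_option autoImplicit false
open Finset

universe u

namespace Pool.Agent.Helper18_TDE.H92

theorem mem_spec {V : Type u} [Fintype V] [DecidableEq V] (M : Matrix V V ℝ) (l : ℝ) :
    l ∈ spectrum ℝ M ↔ ∃ z : V → ℝ, z ≠ 0 ∧ ∀ a, ∑ b, M a b * z b = l * z a := by
  rw [spectrum.mem_iff, Matrix.isUnit_iff_isUnit_det, isUnit_iff_ne_zero, not_not,
    ← Matrix.exists_mulVec_eq_zero_iff]
  refine exists_congr fun z => and_congr_right fun _ => ?_
  have e : ∀ a, (((algebraMap ℝ (Matrix V V ℝ)) l - M).mulVec z) a =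
      l * z a - ∑ b, M a b * z b := by
    intro a
    rw [Matrix.sub_mulVec, Pi.sub_apply, Algebra.algebraMap_eq_smul_one, Matrix.smul_mulVec,
      Matrix.one_mulVec, Pi.smul_apply, smul_eq_mul]
    rfl
  constructor
  · intro h a
    have := congrFun h a
    rw [e, Pi.zero_apply] at this
    linarith
  · intro h
    funext a
    rw [e, Pi.zero_apply, h a, sub_self]

section A

variable {V : Type u} [Fintype V] [DecidableEq V] (G : SimpleGraph V) [DecidableRel G.Adj]

/-- entries of the adjacency matrix -/
def ad (a b : V) : ℝ := if G.Adj a b then 1 else 0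

omit [Fintype V] [DecidableEq V] in
theorem ad_eq (a b : V) : G.adjMatrix ℝ a b = ad G a b := by
  rw [SimpleGraph.adjMatrix_apply]
  rfl

omit [Fintype V] [DecidableEq V] in
theorem ad_symm (a b : V) : ad G a b = ad G b a := by
  unfold ad
  by_cases h : G.Adj a b
  · rw [if_pos h, if_pos h.symm]
  · rw [if_neg h, if_neg (fun h' => h h'.symm)]

omit [Fintype V] [DecidableEq V] in
theorem ad_self (a : V) : ad G a a = 0 := if_neg (G.loopless.irrefl a)

omit [Fintype V] [DecidableEq V] in
theorem ad_sq (a b : V) : ad G a b * ad G a b = ad G a b := by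
  unfold ad
  split_ifs <;> norm_num

omit [Fintype V] in
/-- `M = 2 J + I - A` -/
theorem gm_compl (a b : V) : gm Gᶜ a b = 2 + (if a = b then 1 else 0) - ad G a b := by
  unfold gm ad
  by_cases h : a = b
  · subst h
    simp
    norm_num
  · rw [if_neg h, if_neg h]
    by_cases h2 : G.Adj a b
    · rw [if_pos h2, if_neg (by rw [SimpleGraph.compl_adj]; exact fun h3 => h3.2 h2)]
      norm_num
    · rw [if_neg h2, if_pos (by rw [SimpleGraph.compl_adj]; exact ⟨h, h2⟩)]
      norm_num

omit [DecidableEq V] in
theorem card_common (a b : V) :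
    ((Fintype.card (G.commonNeighbors a b) : ℕ) : ℝ) = ∑ z, ad G a z * ad G z b := by
  have h1 : Fintype.card (G.commonNeighbors a b) =
      (univ.filter fun z => G.Adj a z ∧ G.Adj b z).card := by
    refine Fintype.card_of_subtype _ fun z => ?_
    rw [Finset.mem_filter]
    simp [SimpleGraph.commonNeighbors, SimpleGraph.mem_neighborSet]
  rw [h1, Finset.card_filter]
  push_cast
  refine Finset.sum_congr rfl fun z _ => ?_
  unfold ad
  by_cases h2 : G.Adj a z
  · by_cases h3 : G.Adj b z
    · rw [if_pos ⟨h2, h3⟩, if_pos h2, if_pos h3.symm, mul_one]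
    · rw [if_neg (fun h => h3 h.2), if_pos h2, if_neg (fun h : G.Adj z b => h3 h.symm), mul_zero]
  · rw [if_neg (fun h => h2 h.1), if_neg h2, zero_mul]

omit [DecidableEq V] in
theorem card_deg (a : V) : ((G.degree a : ℕ) : ℝ) = ∑ z, ad G a z := by
  rw [← SimpleGraph.card_neighborFinset_eq_degree, SimpleGraph.neighborFinset_eq_filter,
    Finset.card_filter]
  push_cast
  rfl

end A

theorem srg : SrgStmt.{u} := by
  intro V _ _ G _ m x θ v y hconn htop D hconst hker
  obtain ⟨z0, hz0, hzk⟩ := hker
  obtain ⟨a0⟩ : Nonempty V := by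
    by_contra h
    rw [not_nonempty_iff] at h
    exact hz0 (funext fun a => (h.false a).elim)
  set c := v a0 with hc
  have hcv : ∀ a, v a = c := fun a => hconst a a0
  have hcpos : 0 < c := D.v_pos a0
  set n := Fintype.card V with hn
  -- expansion of the square
  have hexp : ∀ a b, ∑ z, gm Gᶜ a z * gm Gᶜ z b = 4 * n + 4 - 2 * (∑ z, ad G a z) -
      2 * (∑ z, ad G z b) + (if a = b then 1 else 0) - 2 * ad G a b +
      ∑ z, ad G a z * ad G z b := by
    intro a b
    have h1 : ∀ z, gm Gᶜ a z * gm Gᶜ z b = 4 + 2 * (if z = b then 1 else 0) - 2 * ad G z b +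
        (2 * (if a = z then 1 else 0) + (if a = z then (if z = b then 1 else 0) else 0) -
          (if a = z then ad G z b else 0)) - 2 * ad G a z - (if z = b then ad G a z else 0) +
          ad G a z * ad G z b := by
      intro z
      rw [gm_compl, gm_compl]
      by_cases h2 : a = z
      · by_cases h3 : z = b
        · simp only [if_pos h2, if_pos h3]; ring
        · simp only [if_pos h2, if_neg h3]; ring
      · by_cases h3 : z = b
        · simp only [if_neg h2, if_pos h3]; ring
        · simp only [if_neg h2, if_neg h3]; ring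
    rw [Finset.sum_congr rfl fun z _ => h1 z]
    simp only [Finset.sum_add_distrib, Finset.sum_sub_distrib, ← Finset.mul_sum,
      Finset.sum_ite_eq, Finset.sum_ite_eq', Finset.mem_univ, if_true, Finset.sum_const,
      Finset.card_univ, nsmul_eq_mul]
    rw [← hn]
    ring
  have hsq : ∀ a b, ∑ z, gm Gᶜ a z * gm Gᶜ z b = θ * (2 + (if a = b then 1 else 0) - ad G a b) +
      c ^ 2 := by
    intro a b
    rw [D.sq a b, hcv, hcv, gm_compl]
    ring
  have hcol : ∀ b, ∑ z, ad G z b = ∑ z, ad G b z := fun b =>
    Finset.sum_congr rfl fun z _ => ad_symm G z b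
  -- regular
  have hdeg : ∀ a, 3 * ∑ z, ad G a z = 4 * n + 5 - 3 * θ - c ^ 2 := by
    intro a
    have h1 := hexp a a
    rw [hsq a a, hcol a] at h1
    have h2 : ∑ z, ad G a z * ad G z a = ∑ z, ad G a z :=
      Finset.sum_congr rfl fun z _ => by rw [ad_symm G z a, ad_sq]
    rw [h2, ad_self] at h1
    simp only [if_true] at h1
    linarith
  set k := G.degree a0 with hk
  have hkd : ∀ a, G.degree a = k := by
    intro a
    have h1 := hdeg a
    have h2 := hdeg a0
    rw [← card_deg] at h1 h2
    have h3 : ((G.degree a : ℕ) : ℝ) = ((G.degree a0 : ℕ) : ℝ) := by linarith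
    exact_mod_cast h3
  have hks : ∀ a, ∑ z, ad G a z = k := by
    intro a
    rw [← card_deg, hkd a]
  have hcom : ∀ a b, a ≠ b → ∑ z, ad G a z * ad G z b =
      θ * (2 - ad G a b) + c ^ 2 - 4 * n - 4 + 4 * k + 2 * ad G a b := by
    intro a b hab
    have h1 := hexp a b
    rw [hsq a b, hcol b, hks, hks, if_neg hab] at h1
    linarith
  -- parameters
  obtain ⟨l, hl⟩ : ∃ l : ℕ, ∀ a b, G.Adj a b → Fintype.card (G.commonNeighbors a b) = l := by
    by_cases h : ∃ a b, G.Adj a b
    · obtain ⟨a, b, hab⟩ := h
      refine ⟨Fintype.card (G.commonNeighbors a b), fun a' b' h' => ?_⟩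
      have h1 := hcom a b hab.ne
      have h2 := hcom a' b' h'.ne
      rw [← card_common] at h1 h2
      rw [show ad G a b = 1 from if_pos hab] at h1
      rw [show ad G a' b' = 1 from if_pos h'] at h2
      have h3 : ((Fintype.card (G.commonNeighbors a' b') : ℕ) : ℝ) =
          ((Fintype.card (G.commonNeighbors a b) : ℕ) : ℝ) := by linarith
      exact_mod_cast h3
    · exact ⟨0, fun a b hab => (h ⟨a, b, hab⟩).elim⟩
  obtain ⟨mu, hmu⟩ : ∃ mu : ℕ, ∀ a b, a ≠ b → ¬ G.Adj a b →
      Fintype.card (G.commonNeighbors a b) = mu := by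
    by_cases h : ∃ a b, a ≠ b ∧ ¬ G.Adj a b
    · obtain ⟨a, b, hne, hab⟩ := h
      refine ⟨Fintype.card (G.commonNeighbors a b), fun a' b' hne' h' => ?_⟩
      have h1 := hcom a b hne
      have h2 := hcom a' b' hne'
      rw [← card_common] at h1 h2
      rw [show ad G a b = 0 from if_neg hab] at h1
      rw [show ad G a' b' = 0 from if_neg h'] at h2
      have h3 : ((Fintype.card (G.commonNeighbors a' b') : ℕ) : ℝ) =
          ((Fintype.card (G.commonNeighbors a b) : ℕ) : ℝ) := by linarith
      exact_mod_cast h3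
    · exact ⟨0, fun a b hne hab => (h ⟨a, b, hne, hab⟩).elim⟩
  refine ⟨k, l, mu, ⟨rfl, hkd, hl, fun a b hne hab => hmu a b hne hab⟩, ?_, ?_⟩
  · -- `1` is an eigenvalue different from `k`
    have hrow : ∀ a, ∑ z, gm Gᶜ a z = x := by
      intro a
      have h := D.eig a
      simp only [hcv] at h
      rw [← Finset.sum_mul] at h
      exact mul_right_cancel₀ hcpos.ne' h
    have hsum0 : ∑ a, z0 a = 0 := by
      have h1 : ∑ a, ∑ b, gm Gᶜ a b * z0 b = 0 := Finset.sum_eq_zero fun a _ => hzk a
      rw [Finset.sum_comm] at h1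
      have h2 : ∀ b, ∑ a, gm Gᶜ a b * z0 b = x * z0 b := by
        intro b
        rw [← Finset.sum_mul, ← hrow b]
        congr 1
        exact Finset.sum_congr rfl fun a _ => gm_symm _ a b
      rw [Finset.sum_congr rfl fun b _ => h2 b, ← Finset.mul_sum] at h1
      have hx : x ≠ 0 := (D.θ_pos.trans D.θ_lt).ne'
      exact (mul_eq_zero.1 h1).resolve_left hx
    refine ⟨?_, ?_⟩
    · rw [mem_spec]
      refine ⟨z0, hz0, fun a => ?_⟩
      have h1 := hzk a
      have h2 : ∀ b, gm Gᶜ a b * z0 b = 2 * z0 b + (if a = b then z0 b else 0) -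
          G.adjMatrix ℝ a b * z0 b := by
        intro b
        rw [gm_compl, ad_eq]
        split_ifs <;> ring
      rw [Finset.sum_congr rfl fun b _ => h2 b, Finset.sum_sub_distrib, Finset.sum_add_distrib,
        ← Finset.mul_sum, hsum0, Finset.sum_ite_eq, if_pos (Finset.mem_univ _)] at h1
      linarith
    · rw [Set.mem_singleton_iff]
      intro hk1
      have hk1' : k = 1 := by exact_mod_cast hk1.symm
      -- a connected graph of degree one is complete
      obtain ⟨p, q, hpq, hnpq⟩ : ∃ p q : V, p ≠ q ∧ ¬ G.Adj p q := by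
        by_contra hall
        push Not at hall
        refine htop ?_
        ext p q
        rw [SimpleGraph.top_adj]
        exact ⟨fun h => h.ne, fun h => hall p q h⟩
      have hreach : G.Reachable p q := hconn.preconnected p q
      obtain ⟨w⟩ := hreach
      -- the unique neighbour
      have huniq : ∀ a b c, G.Adj a b → G.Adj a c → b = c := by
        intro a b c hab hac
        have h1 := hkd a
        rw [hk1', ← SimpleGraph.card_neighborFinset_eq_degree, Finset.card_eq_one] at h1
        obtain ⟨d, hd⟩ := h1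
        have e1 : b ∈ G.neighborFinset a := (G.mem_neighborFinset a b).2 hab
        have e2 : c ∈ G.neighborFinset a := (G.mem_neighborFinset a c).2 hac
        rw [hd, Finset.mem_singleton] at e1 e2
        rw [e1, e2]
      have hclosed : ∀ a b : V, G.Walk a b → ∀ p', (a = p ∨ (a = p' ∧ G.Adj p p')) → G.Adj p p' →
          b = p ∨ b = p' := by
        intro a b w
        induction w with
        | nil => intro p' h _; exact h.imp id (fun h => h.1)
        | cons hadj w ih =>
          intro p' h hp'
          refine ih p' ?_ hp'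
          rcases h with h | ⟨h, -⟩
          · subst h
            right
            exact ⟨huniq _ _ _ hadj hp', hp'⟩
          · subst h
            left
            exact huniq _ _ _ hadj hp'.symm
      -- `p` has a neighbour
      obtain ⟨p', hp'⟩ : ∃ p', G.Adj p p' := by
        have h1 := hkd p
        rw [hk1', ← SimpleGraph.card_neighborFinset_eq_degree, Finset.card_eq_one] at h1
        obtain ⟨d, hd⟩ := h1
        refine ⟨d, (G.mem_neighborFinset p d).1 ?_⟩
        rw [hd]
        exact Finset.mem_singleton_self d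
      rcases hclosed p q w p' (Or.inl rfl) hp' with h | h
      · exact hpq h.symm
      · exact hnpq (h ▸ hp')
  · -- `1` is the largest one
    rintro l ⟨hls, hlk⟩
    rw [mem_spec] at hls
    obtain ⟨z, hz, hlz⟩ := hls
    rw [Set.mem_singleton_iff] at hlk
    simp only [ad_eq] at hlz
    have hsum0 : ∑ a, z a = 0 := by
      have h1 : ∑ a, ∑ b, ad G a b * z b = l * ∑ a, z a := by
        rw [Finset.sum_congr rfl fun a _ => hlz a, ← Finset.mul_sum]
      rw [Finset.sum_comm] at h1
      have h2 : ∀ b, ∑ a, ad G a b * z b = k * z b := by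
        intro b
        rw [← Finset.sum_mul, hcol b, hks]
      rw [Finset.sum_congr rfl fun b _ => h2 b, ← Finset.mul_sum] at h1
      have h3 : ((k : ℝ) - l) * ∑ a, z a = 0 := by rw [sub_mul, h1, sub_self]
      exact (mul_eq_zero.1 h3).resolve_left (sub_ne_zero.2 (Ne.symm hlk))
    -- `M z = (1 - l) z`
    have hM : ∀ a, ∑ b, gm Gᶜ a b * z b = (1 - l) * z a := by
      intro a
      have h2 : ∀ b, gm Gᶜ a b * z b = 2 * z b + (if a = b then z b else 0) -
          ad G a b * z b := by
        intro b
        rw [gm_compl]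
        split_ifs <;> ring
      rw [Finset.sum_congr rfl fun b _ => h2 b, Finset.sum_sub_distrib, Finset.sum_add_distrib,
        ← Finset.mul_sum, hsum0, Finset.sum_ite_eq, if_pos (Finset.mem_univ _), hlz]
      ring
    obtain ⟨a, ha⟩ : ∃ a, z a ≠ 0 := by
      by_contra hall
      push Not at hall
      exact hz (funext hall)
    have h1 : ∑ b, (∑ w, gm Gᶜ a w * gm Gᶜ w b) * z b = (1 - l) * ((1 - l) * z a) := by
      have h2 : ∑ b, (∑ w, gm Gᶜ a w * gm Gᶜ w b) * z b =
          ∑ w, gm Gᶜ a w * ∑ b, gm Gᶜ w b * z b := by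
        simp only [Finset.sum_mul, Finset.mul_sum]
        rw [Finset.sum_comm]
        exact Finset.sum_congr rfl fun w _ => Finset.sum_congr rfl fun b _ => by ring
      rw [h2]
      simp only [hM]
      have h3 : ∀ w, gm Gᶜ a w * ((1 - l) * z w) = (1 - l) * (gm Gᶜ a w * z w) := fun w => by ring
      rw [Finset.sum_congr rfl fun w _ => h3 w, ← Finset.mul_sum, hM]
    have h4 : ∑ b, (∑ w, gm Gᶜ a w * gm Gᶜ w b) * z b = θ * ((1 - l) * z a) := by
      have h5 : ∀ b, (∑ w, gm Gᶜ a w * gm Gᶜ w b) * z b = θ * (gm Gᶜ a b * z b) +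
          c ^ 2 * z b := by
        intro b
        rw [D.sq, hcv, hcv]
        ring
      rw [Finset.sum_congr rfl fun b _ => h5 b, Finset.sum_add_distrib, ← Finset.mul_sum,
        ← Finset.mul_sum, hsum0, hM, mul_zero, add_zero]
    rw [h4] at h1
    have h6 : (1 - l) * ((1 - l) - θ) * z a = 0 := by linear_combination -h1
    rcases mul_eq_zero.1 h6 with h7 | h7
    · rcases mul_eq_zero.1 h7 with h8 | h8
      · linarith
      · have := D.θ_pos
        linarith
    · exact absurd h7 ha

theorem conv : ConvStmt.{u} := by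
  intro V _ _ G _ k l mu hconn htop hsrg hgr
  obtain ⟨⟨h1s, h1k⟩, -⟩ := hgr
  rw [Set.mem_singleton_iff] at h1k
  set n := Fintype.card V with hn
  have hks : ∀ a, ∑ z, ad G a z = k := by
    intro a
    rw [← card_deg, hsrg.regular a]
  have hcol : ∀ b, ∑ z, ad G z b = k := fun b => by
    rw [← hks b]
    exact Finset.sum_congr rfl fun z _ => ad_symm G z b
  have hA2 : ∀ a b, ∑ z, ad G a z * ad G z b = (k - mu) * (if a = b then 1 else 0) +
      (l - mu) * ad G a b + mu := by
    intro a b
    by_cases hab : a = b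
    · subst hab
      have h2 : ∑ z, ad G a z * ad G z a = ∑ z, ad G a z :=
        Finset.sum_congr rfl fun z _ => by rw [ad_symm G z a, ad_sq]
      rw [h2, hks, ad_self, if_pos rfl]
      ring
    · rw [← card_common, if_neg hab]
      by_cases h : G.Adj a b
      · rw [hsrg.of_adj a b h, show ad G a b = 1 from if_pos h]
        ring
      · rw [hsrg.of_not_adj hab h, show ad G a b = 0 from if_neg h]
        ring
  -- a nonadjacent pair
  obtain ⟨p, q, hpq, hnpq⟩ : ∃ p q : V, p ≠ q ∧ ¬ G.Adj p q := by
    by_contra hall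
    push Not at hall
    refine htop ?_
    ext p q
    rw [SimpleGraph.top_adj]
    exact ⟨fun h => h.ne, fun h => hall p q h⟩
  have hmu : 0 < mu := by
    rcases Nat.eq_zero_or_pos mu with h0 | h0
    · exfalso
      have hcl : ∀ a b : V, G.Walk a b → a = b ∨ G.Adj a b := by
        intro a b w
        induction w with
        | nil => exact Or.inl rfl
        | @cons a a' b hadj w ih =>
          rcases ih with h | h
          · subst h
            exact Or.inr hadj
          · by_cases hab : a = b
            · exact Or.inl hab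
            · right
              by_contra hna
              have h2 := hsrg.of_not_adj hab hna
              rw [h0, Fintype.card_eq_zero_iff] at h2
              exact h2.false ⟨a', (G.mem_commonNeighbors).2 ⟨hadj, h.symm⟩⟩
      obtain ⟨w⟩ := hconn.preconnected p q
      rcases hcl p q w with h | h
      · exact hpq h
      · exact hnpq h
    · exact h0
  have hmuk : mu ≤ k := by
    rw [← hsrg.of_not_adj hpq hnpq, ← hsrg.regular p]
    exact G.card_commonNeighbors_le_degree_left p q
  have hkn : k < n := by
    rw [← hsrg.regular p]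
    exact G.degree_lt_card_verts p
  have hdist : ∀ a b, distMatrix G a b = 2 - 2 * (if a = b then 1 else 0) - ad G a b := by
    intro a b
    unfold distMatrix
    rw [Matrix.of_apply]
    by_cases hab : a = b
    · subst hab
      rw [ad_self, if_pos rfl, SimpleGraph.dist_self]
      norm_num
    · rw [if_neg hab]
      by_cases h : G.Adj a b
      · rw [SimpleGraph.dist_eq_one_iff_adj.2 h, show ad G a b = 1 from if_pos h]
        norm_num
      · have h2 := hsrg.of_not_adj hab h
        obtain ⟨c, hc⟩ : ∃ c, G.Adj a c ∧ G.Adj b c := by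
          have h3 : 0 < Fintype.card (G.commonNeighbors a b) := by rw [h2]; exact hmu
          rw [Fintype.card_pos_iff] at h3
          obtain ⟨⟨c, hc⟩⟩ := h3
          exact ⟨c, (G.mem_commonNeighbors).1 hc⟩
        have h4 : G.dist a b ≤ 2 := SimpleGraph.dist_le
          (SimpleGraph.Walk.cons hc.1 (SimpleGraph.Walk.cons hc.2.symm SimpleGraph.Walk.nil))
        have h5 : G.dist a b ≠ 1 := fun h6 => h (SimpleGraph.dist_eq_one_iff_adj.1 h6)
        have h6 : 0 < G.dist a b := hconn.pos_dist_of_ne hab
        have h7 : G.dist a b = 2 := by omega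
        rw [h7, show ad G a b = 0 from if_neg h]
        norm_num
  have hD : ∀ (z : V → ℝ) (a : V), ∑ b, distMatrix G a b * z b =
      2 * ∑ b, z b - 2 * z a - ∑ b, ad G a b * z b := by
    intro z a
    have h2 : ∀ b, distMatrix G a b * z b = 2 * z b - 2 * (if a = b then z b else 0) -
        ad G a b * z b := by
      intro b
      rw [hdist]
      split_ifs <;> ring
    rw [Finset.sum_congr rfl fun b _ => h2 b, Finset.sum_sub_distrib, Finset.sum_sub_distrib,
      ← Finset.mul_sum, ← Finset.mul_sum, Finset.sum_ite_eq, if_pos (Finset.mem_univ _)]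
  -- eigenvectors of `A` orthogonal to the constants
  have horth : ∀ (r : ℝ) (z : V → ℝ), r ≠ k → (∀ a, ∑ b, ad G a b * z b = r * z a) →
      ∑ a, z a = 0 := by
    intro r z hr hz
    have h1 : ∑ a, ∑ b, ad G a b * z b = r * ∑ a, z a := by
      rw [Finset.sum_congr rfl fun a _ => hz a, ← Finset.mul_sum]
    rw [Finset.sum_comm] at h1
    have h2 : ∀ b, ∑ a, ad G a b * z b = k * z b := by
      intro b
      rw [← Finset.sum_mul, hcol b]
    rw [Finset.sum_congr rfl fun b _ => h2 b, ← Finset.mul_sum] at h1
    have h3 : ((k : ℝ) - r) * ∑ a, z a = 0 := by rw [sub_mul, h1, sub_self]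
    exact (mul_eq_zero.1 h3).resolve_left (sub_ne_zero.2 (Ne.symm hr))
  have hquad : ∀ (r : ℝ) (z : V → ℝ), z ≠ 0 → ∑ a, z a = 0 →
      (∀ a, ∑ b, ad G a b * z b = r * z a) → r * r = (k - mu) + (l - mu) * r := by
    intro r z hz0 hsum hz
    obtain ⟨a, ha⟩ : ∃ a, z a ≠ 0 := by
      by_contra hall
      push Not at hall
      exact hz0 (funext hall)
    have h1 : ∑ b, (∑ w, ad G a w * ad G w b) * z b = r * (r * z a) := by
      have h2 : ∑ b, (∑ w, ad G a w * ad G w b) * z b =
          ∑ w, ad G a w * ∑ b, ad G w b * z b := by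
        simp only [Finset.sum_mul, Finset.mul_sum]
        rw [Finset.sum_comm]
        exact Finset.sum_congr rfl fun w _ => Finset.sum_congr rfl fun b _ => by ring
      rw [h2]
      simp only [hz]
      have h3 : ∀ w, ad G a w * (r * z w) = r * (ad G a w * z w) := fun w => by ring
      rw [Finset.sum_congr rfl fun w _ => h3 w, ← Finset.mul_sum, hz]
    have h4 : ∑ b, (∑ w, ad G a w * ad G w b) * z b = (k - mu) * z a + (l - mu) * (r * z a) := by
      have h5 : ∀ b, (∑ w, ad G a w * ad G w b) * z b = (k - mu) * (if a = b then z b else 0) +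
          (l - mu) * (ad G a b * z b) + mu * z b := by
        intro b
        rw [hA2]
        split_ifs <;> ring
      rw [Finset.sum_congr rfl fun b _ => h5 b, Finset.sum_add_distrib, Finset.sum_add_distrib,
        ← Finset.mul_sum, ← Finset.mul_sum, ← Finset.mul_sum, hsum, hz, Finset.sum_ite_eq,
        if_pos (Finset.mem_univ _)]
      ring
    rw [h4] at h1
    refine mul_right_cancel₀ ha ?_
    linear_combination -h1
  -- the eigenvalue one
  rw [mem_spec] at h1s
  obtain ⟨z1, hz10, hz1⟩ := h1s
  simp only [ad_eq] at hz1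
  have hz1s : ∑ a, z1 a = 0 := horth 1 z1 h1k hz1
  have hone := hquad 1 z1 hz10 hz1s hz1
  set s : ℝ := -((k : ℝ) - mu) with hs
  have hs' : s = l - mu - 1 := by rw [hs]; linarith
  have hs0 : s ≤ 0 := by
    have : (mu : ℝ) ≤ k := by exact_mod_cast hmuk
    rw [hs]
    linarith
  -- the eigenvector for `s`
  set u : V → ℝ := fun a => ad G a p - ad G a q - ((if a = p then 1 else 0) -
    (if a = q then 1 else 0)) with hu
  have hup : u p ≠ 0 := by
    rw [hu]
    simp only [ad_self, if_true, if_neg hpq]
    rw [show ad G p q = 0 from if_neg hnpq]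
    norm_num
  have hu0 : u ≠ 0 := fun h => hup (congrFun h p)
  have hus : ∑ a, u a = 0 := by
    rw [hu]
    simp only [Finset.sum_sub_distrib, hcol, Finset.sum_ite_eq', Finset.mem_univ, if_true]
    ring
  have huA : ∀ a, ∑ b, ad G a b * u b = s * u a := by
    intro a
    have h2 : ∀ b, ad G a b * u b = ad G a b * ad G b p - ad G a b * ad G b q -
        ((if b = p then ad G a b else 0) - (if b = q then ad G a b else 0)) := by
      intro b
      rw [hu]
      simp only
      split_ifs <;> ring
    rw [Finset.sum_congr rfl fun b _ => h2 b]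
    simp only [Finset.sum_sub_distrib, hA2, Finset.sum_ite_eq', Finset.mem_univ, if_true]
    rw [hu]
    simp only
    have e1 : (k : ℝ) - mu = -s := by rw [hs]; ring
    have e2 : (l : ℝ) - mu = s + 1 := by rw [hs']; ring
    rw [e1, e2]
    ring
  -- the spectrum of the distance matrix
  have hspec : spectrum ℝ (distMatrix G) = {-3, -2 - s, 2 * (n : ℝ) - 2 - k} := by
    ext r
    rw [mem_spec, Set.mem_insert_iff, Set.mem_insert_iff, Set.mem_singleton_iff]
    constructor
    · rintro ⟨z, hz0, hz⟩
      by_cases hr : r = 2 * (n : ℝ) - 2 - k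
      · exact Or.inr (Or.inr hr)
      have hsum : ∑ a, z a = 0 := by
        have h1 : ∑ a, ∑ b, distMatrix G a b * z b = r * ∑ a, z a := by
          rw [Finset.sum_congr rfl fun a _ => hz a, ← Finset.mul_sum]
        simp only [hD] at h1
        rw [Finset.sum_sub_distrib, Finset.sum_sub_distrib, Finset.sum_const, Finset.card_univ,
          nsmul_eq_mul, ← Finset.mul_sum, Finset.sum_comm] at h1
        have h2 : ∀ b, ∑ a, ad G a b * z b = k * z b := by
          intro b
          rw [← Finset.sum_mul, hcol b]
        rw [Finset.sum_congr rfl fun b _ => h2 b, ← Finset.mul_sum, ← hn] at h1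
        have h3 : (2 * (n : ℝ) - 2 - k - r) * ∑ a, z a = 0 := by linear_combination h1
        exact (mul_eq_zero.1 h3).resolve_left (fun h => hr (by linarith))
      have hz' : ∀ a, ∑ b, ad G a b * z b = (-2 - r) * z a := by
        intro a
        have h1 := hz a
        rw [hD, hsum] at h1
        linarith
      have h4 := hquad (-2 - r) z hz0 hsum hz'
      have e1 : (k : ℝ) - mu = -s := by rw [hs]; ring
      have e2 : (l : ℝ) - mu = s + 1 := by rw [hs']; ring
      rw [e1, e2] at h4
      have h5 : (-2 - r - 1) * (-2 - r - s) = 0 := by linear_combination h4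
      rcases mul_eq_zero.1 h5 with h6 | h6
      · left; linarith
      · right; left; linarith
    · rintro (h | h | h)
      · refine ⟨z1, hz10, fun a => ?_⟩
        rw [hD, hz1s, hz1, h]
        ring
      · refine ⟨u, hu0, fun a => ?_⟩
        rw [hD, hus, huA, h]
        ring
      · refine ⟨fun _ => 1, fun h0 => one_ne_zero (congrFun h0 p), fun a => ?_⟩
        rw [hD]
        simp only [mul_one, hks, Finset.sum_const, Finset.card_univ, nsmul_eq_mul]
        rw [← hn, h]
  have hkn' : (k : ℝ) + 1 ≤ n := by exact_mod_cast hkn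
  have hmu' : (0 : ℝ) < mu := by exact_mod_cast hmu
  constructor
  · rw [hspec, Set.ncard_eq_three]
    refine ⟨_, _, _, ?_, ?_, ?_, rfl⟩
    · intro h; linarith
    · intro h; linarith
    · intro h
      rw [hs] at h
      linarith
  · rw [hspec]
    refine ⟨Set.mem_insert _ _, ?_⟩
    rintro r (h | h | h)
    · exact h.ge
    · rw [h]; linarith
    · rw [Set.mem_singleton_iff] at h
      rw [h]; linarith

end Pool.Agent.Helper18_TDE.H92
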