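import Pool.Agent.Helper18_TDE.Defs

/-!
# TDE modules VAL and INTG
-/

set_option autoImplicit false
open Finset

universe u

namespace Pool.Agent.Helper18_TDE.H92

variable {V : Type u} [Fintype V] [DecidableEq V]

/-- integral version of `gm` -/
def gmZ (H : SimpleGraph V) [DecidableRel H.Adj] (a b : V) : ℤ :=
  if a = b then 3 else if H.Adj a b then 2 else 1

omit [Fintype V] in
theorem gmZ_cast (H : SimpleGraph V) [DecidableRel H.Adj] (a b : V) :
    ((gmZ H a b : ℤ) : ℝ) = gm H a b := by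
  unfold gmZ gm
  split_ifs <;> norm_num

/-- `v a * v b` is an integer minus `θ gm a b` -/
theorem vv_eq {H : SimpleGraph V} [DecidableRel H.Adj] {m : ℕ} {x θ : ℝ} {v : V → ℝ}
    {y : Fin (m + 1) → V → ℝ} (D : Dat H m x θ v y) (a b : V) :
    v a * v b = ((∑ z, gmZ H a z * gmZ H z b : ℤ) : ℝ) - θ * gm H a b := by
  have h := D.sq a b
  push_cast
  simp only [gmZ_cast]
  linarith

theorem val : ValStmt.{u} := by
  intro V _ _ H _ m t x v y D
  -- integer products
  set N : V → V → ℤ := fun a b => ∑ z, gmZ H a z * gmZ H z b - t * gmZ H a b with hN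
  have hNv : ∀ a b, v a * v b = ((N a b : ℤ) : ℝ) := by
    intro a b
    rw [vv_eq D a b, hN]
    push_cast
    simp only [gmZ_cast]
  have hNpos : ∀ a b, 0 < N a b := by
    intro a b
    have h : (0 : ℝ) < ((N a b : ℤ) : ℝ) := by
      rw [← hNv]
      exact mul_pos (D.v_pos a) (D.v_pos b)
    exact_mod_cast h
  rcases isEmpty_or_nonempty V with hV | ⟨⟨a0⟩⟩
  · exact ⟨1, fun _ => 1, squarefree_one, fun a => (hV.false a).elim, fun a => (hV.false a).elim⟩
  obtain ⟨s, c, hs, hc, hsc, hsq⟩ := Nat.sq_mul_squarefree_of_pos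
    (n := (N a0 a0).toNat) (by have := hNpos a0 a0; omega)
  have hsc' : (((c : ℕ) : ℝ)) ^ 2 * (s : ℝ) = v a0 ^ 2 := by
    have h1 : (((N a0 a0).toNat : ℕ) : ℤ) = N a0 a0 := Int.toNat_of_nonneg (hNpos a0 a0).le
    have h2 : ((((N a0 a0).toNat : ℕ) : ℤ) : ℝ) = v a0 ^ 2 := by
      rw [h1, ← hNv, sq]
    rw [← h2, ← hsc]
    push_cast
    ring
  have main : ∀ a, ∃ e : ℕ, 0 < e ∧ v a = Real.sqrt s * e := by
    intro a
    have hP0 := hNpos a a
    have hK0 := hNpos a a0
    obtain ⟨P, hP⟩ := Int.eq_ofNat_of_zero_le hP0.le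
    obtain ⟨K, hK⟩ := Int.eq_ofNat_of_zero_le hK0.le
    have hPv : (P : ℝ) = v a ^ 2 := by
      have := hNv a a
      rw [hP] at this
      rw [sq, this]
      simp
    have hKv : (K : ℝ) = v a * v a0 := by
      have := hNv a a0
      rw [hK] at this
      rw [this]
      simp
    have h1 : (P : ℝ) * (c ^ 2 * s) = (K : ℝ) ^ 2 := by
      rw [hPv, hKv, hsc']
      ring
    have h2 : P * (c ^ 2 * s) = K ^ 2 := by exact_mod_cast h1
    have h3 : c ^ 2 ∣ K ^ 2 := ⟨P * s, by rw [← h2]; ring⟩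
    have h4 : c ∣ K := (Nat.pow_dvd_pow_iff two_ne_zero).1 h3
    obtain ⟨L, rfl⟩ := h4
    have h5 : P * s = L ^ 2 := by
      have : c ^ 2 * (P * s) = c ^ 2 * L ^ 2 := by
        rw [← mul_pow, ← h2]; ring
      exact Nat.eq_of_mul_eq_mul_left (by positivity) this
    have h6 : s ∣ L := by
      have h7 : s ∣ L ^ 2 := ⟨P, by rw [← h5]; ring⟩
      exact (hsq.dvd_pow_iff_dvd two_ne_zero).1 h7
    obtain ⟨e, rfl⟩ := h6
    have h8 : P = s * e ^ 2 := by
      have : s * P = s * (s * e ^ 2) := by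
        rw [mul_comm s P, h5]; ring
      exact Nat.eq_of_mul_eq_mul_left hs this
    have he : 0 < e := by
      rcases Nat.eq_zero_or_pos e with h | h
      · rw [h] at h8
        rw [hP, h8] at hP0
        simp at hP0
      · exact h
    refine ⟨e, he, ?_⟩
    have h9 : v a ^ 2 = (Real.sqrt s * e) ^ 2 := by
      rw [← hPv, h8, mul_pow, Real.sq_sqrt (Nat.cast_nonneg s)]
      push_cast
      ring
    exact (pow_left_inj₀ (D.v_pos a).le (by positivity) two_ne_zero).1 h9
  choose e he hve using main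
  exact ⟨s, e, hsq, he, hve⟩

/-! ### INTG -/

/-- three vectors in a plane have a degenerate Gram matrix -/
theorem gram3 (a1 a2 b1 b2 c1 c2 : ℝ) (p q r s t w : ℝ)
    (hp : a1 * a1 + a2 * a2 = s) (hq : b1 * b1 + b2 * b2 = t) (hr : c1 * c1 + c2 * c2 = w)
    (hab : a1 * b1 + a2 * b2 = p) (hac : a1 * c1 + a2 * c2 = q) (hbc : b1 * c1 + b2 * c2 = r) :
    s * t * w + 2 * (p * q * r) - s * r ^ 2 - t * q ^ 2 - w * p ^ 2 = 0 := by
  subst hp hq hr hab hac hbc
  ring

theorem gm_off {V : Type u} [DecidableEq V] (H : SimpleGraph V) [DecidableRel H.Adj] {a b : V}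
    (h : a ≠ b) : gm H a b = 2 ∨ gm H a b = 1 := by
  unfold gm
  rw [if_neg h]
  split_ifs
  · exact Or.inl rfl
  · exact Or.inr rfl

theorem gm_self {V : Type u} [DecidableEq V] (H : SimpleGraph V) [DecidableRel H.Adj] (a : V) :
    gm H a a = 3 := if_pos rfl

theorem gm_symm {V : Type u} [DecidableEq V] (H : SimpleGraph V) [DecidableRel H.Adj] (a b : V) :
    gm H a b = gm H b a := by
  unfold gm
  by_cases h : a = b
  · rw [h]
  · rw [if_neg h, if_neg (Ne.symm h)]
    by_cases h2 : H.Adj a b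
    · rw [if_pos h2, if_pos h2.symm]
    · rw [if_neg h2, if_neg (fun h3 => h2 h3.symm)]

theorem int_of_quad (r : ℚ) (A B C : ℤ) (_hA : 0 < A)
    (h : (A : ℚ) * r ^ 2 + B * r + C = 0) : ∃ z : ℤ, (z : ℚ) = A * r := by
  have h1 : IsIntegral ℤ ((A : ℚ) * r) := by
    refine ⟨Polynomial.X ^ 2 + (Polynomial.C B * Polynomial.X + Polynomial.C (A * C)), ?_, ?_⟩
    · refine Polynomial.monic_X_pow_add ?_
      refine (Polynomial.degree_linear_le).trans_lt ?_
      exact_mod_cast one_lt_two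
    · simp only [Polynomial.eval₂_add, Polynomial.eval₂_mul, Polynomial.eval₂_pow,
        Polynomial.eval₂_X, Polynomial.eval₂_C]
      simp only [algebraMap_int_eq, eq_intCast, Int.cast_mul]
      linear_combination (A : ℚ) * h
  obtain ⟨z, hz⟩ := IsIntegrallyClosed.isIntegral_iff.1 h1
  exact ⟨z, by simpa using hz⟩

theorem intg : IntgStmt.{u} := by
  intro V _ _ H _ m x θ v y D hE hN
  obtain ⟨a, b, hab⟩ := hE
  obtain ⟨c, d, hcd, hncd⟩ := hN
  have hne : a ≠ b := hab.ne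
  -- (1)
  have hm : 2 ≤ m := by
    by_contra hlt
    obtain ⟨y1, y2, hy⟩ : ∃ y1 y2 : V → ℝ, ∀ p q, y1 p * y1 q + y2 p * y2 q = gm H p q := by
      have hm' : m = 0 ∨ m = 1 := by omega
      rcases hm' with h | h
      · subst h
        refine ⟨y 0, fun _ => 0, fun p q => ?_⟩
        have := D.gram p q
        rw [Fin.sum_univ_one] at this
        rw [← this]; ring
      · subst h
        refine ⟨y 0, y 1, fun p q => ?_⟩
        have := D.gram p q
        rw [Fin.sum_univ_two] at this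
        exact this
    -- three distinct vertices
    obtain ⟨e, hea, heb⟩ : ∃ e : V, e ≠ a ∧ e ≠ b := by
      by_cases h1 : c ≠ a ∧ c ≠ b
      · exact ⟨c, h1⟩
      · by_cases h2 : d ≠ a ∧ d ≠ b
        · exact ⟨d, h2⟩
        · exfalso
          rw [not_and_or, not_not, not_not] at h1 h2
          rcases h1 with h1 | h1 <;> rcases h2 with h2 | h2
          · exact hcd (h1.trans h2.symm)
          · exact hncd (by rw [h1, h2]; exact hab)
          · exact hncd (by rw [h1, h2]; exact hab.symm)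
          · exact hcd (h1.trans h2.symm)
    have hg := gram3 (y1 a) (y2 a) (y1 b) (y2 b) (y1 e) (y2 e) _ _ _ _ _ _ (hy a a) (hy b b)
      (hy e e) (hy a b) (hy a e) (hy b e)
    rw [gm_self, gm_self, gm_self] at hg
    rcases gm_off H hne with h1 | h1 <;> rcases gm_off H hea.symm with h2 | h2 <;>
      rcases gm_off H heb.symm with h3 | h3 <;> rw [h1, h2, h3] at hg <;> norm_num at hg
  -- (2) power sums
  set n := Fintype.card V with hn
  have hmR : (2 : ℝ) ≤ m := by exact_mod_cast hm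
  have p1 : (3 * (n : ℤ) : ℝ) = x + m * θ := by
    push_cast
    exact D.tr
  have hsq2 : ∑ a, ∑ b, gm H a b * gm H b a = x ^ 2 + m * θ ^ 2 := by
    have h1 : ∀ a, ∑ b, gm H a b * gm H b a = 3 * θ + v a ^ 2 := by
      intro a
      rw [D.sq a a, gm_self]
      ring
    rw [Finset.sum_congr rfl fun a _ => h1 a, Finset.sum_add_distrib, D.norm, Finset.sum_const,
      Finset.card_univ, nsmul_eq_mul]
    have := D.tr
    have h2 : (n : ℝ) * (3 * θ) = (x + m * θ) * θ := by rw [← this]; ring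
    rw [h2]
    ring
  have hsq3 : ∑ a, ∑ c, (∑ b, gm H a b * gm H b c) * gm H c a = x ^ 3 + m * θ ^ 3 := by
    have h1 : ∀ a, ∑ c, (∑ b, gm H a b * gm H b c) * gm H c a =
        θ * (∑ c, gm H a c * gm H c a) + x * v a ^ 2 := by
      intro a
      have h2 : ∀ c, (∑ b, gm H a b * gm H b c) * gm H c a =
          θ * (gm H a c * gm H c a) + v a * (gm H a c * v c) := by
        intro c
        rw [D.sq a c, gm_symm H c a]
        ring
      rw [Finset.sum_congr rfl fun c _ => h2 c, Finset.sum_add_distrib, ← Finset.mul_sum,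
        ← Finset.mul_sum, D.eig a]
      ring
    rw [Finset.sum_congr rfl fun a _ => h1 a, Finset.sum_add_distrib, ← Finset.mul_sum, hsq2,
      ← Finset.mul_sum, D.norm]
    ring
  set P2 : ℤ := ∑ a, ∑ b, gmZ H a b * gmZ H b a with hP2
  set P3 : ℤ := ∑ a, ∑ c, (∑ b, gmZ H a b * gmZ H b c) * gmZ H c a with hP3
  have p2 : ((P2 : ℤ) : ℝ) = x ^ 2 + m * θ ^ 2 := by
    rw [← hsq2, hP2]
    push_cast
    simp only [gmZ_cast]
  have p3 : ((P3 : ℤ) : ℝ) = x ^ 3 + m * θ ^ 3 := by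
    rw [← hsq3, hP3]
    push_cast
    simp only [gmZ_cast]
  -- rationality
  have hrat : ∃ r : ℚ, (r : ℝ) = θ := by
    set A : ℚ := 3 * n / (m + 1) with hA
    have hm1 : ((m : ℝ) + 1) ≠ 0 := by positivity
    have hm0 : (m : ℝ) ≠ 0 := by positivity
    set δ : ℝ := θ - A with hδ
    have hAx : x = (A : ℝ) - m * δ := by
      rw [hδ, hA]
      push_cast
      push_cast at p1
      field_simp
      linear_combination (-((m : ℝ) + 1)) * p1
    have hθA : θ = (A : ℝ) + δ := by rw [hδ]; ring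
    have hδ0 : δ ≠ 0 := by
      intro h
      have : x = θ := by rw [hAx, hθA, h]; ring
      exact absurd this D.θ_lt.ne'
    have hd2 : δ ^ 2 = ((((P2 : ℚ) - (m + 1) * A ^ 2) / (m * (m + 1)) : ℚ) : ℝ) := by
      push_cast
      rw [p2, hAx, hθA]
      field_simp
      ring
    have hm2 : (m : ℝ) - m ^ 3 ≠ 0 := by
      have ha : (0 : ℝ) < m := by linarith
      have hb : (0 : ℝ) < (m : ℝ) ^ 2 - 1 := by nlinarith
      have hc := mul_pos ha hb
      have : (m : ℝ) - m ^ 3 < 0 := by nlinarith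
      exact this.ne
    have hd3 : δ ^ 3 = ((((P3 : ℚ) - (m + 1) * A ^ 3 - 3 * A * (m * (m + 1)) *
        (((P2 : ℚ) - (m + 1) * A ^ 2) / (m * (m + 1)))) / (m - m ^ 3) : ℚ) : ℝ) := by
      rw [eq_comm]
      push_cast
      rw [div_eq_iff hm2]
      have h1 : (((P2 : ℤ) : ℝ) - (m + 1) * (A : ℝ) ^ 2) / (m * (m + 1)) = δ ^ 2 := by
        rw [hd2]
        push_cast
        rfl
      rw [h1, p3, hAx, hθA]
      ring
    refine ⟨A + (((P3 : ℚ) - (m + 1) * A ^ 3 - 3 * A * (m * (m + 1)) *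
        (((P2 : ℚ) - (m + 1) * A ^ 2) / (m * (m + 1)))) / (m - m ^ 3)) /
        (((P2 : ℚ) - (m + 1) * A ^ 2) / (m * (m + 1))), ?_⟩
    clear_value A
    rw [Rat.cast_add, Rat.cast_div, ← hd2, ← hd3, hθA]
    field_simp
  obtain ⟨r, hr⟩ := hrat
  -- (3) integrality
  have hquad : ∀ a b : V, ∀ g : ℤ, gm H a b = g → ∃ B C : ℤ,
      ((9 - g ^ 2 : ℤ) : ℚ) * r ^ 2 + B * r + C = 0 := by
    intro a b g hg
    have e1 := vv_eq D a a
    have e2 := vv_eq D b b
    have e3 := vv_eq D a b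
    rw [gm_self] at e1 e2
    rw [hg] at e3
    set i : ℤ := ∑ z, gmZ H a z * gmZ H z a
    set j : ℤ := ∑ z, gmZ H b z * gmZ H z b
    set k : ℤ := ∑ z, gmZ H a z * gmZ H z b
    have e4 : (v a * v b) * (v a * v b) = (v a * v a) * (v b * v b) := by ring
    rw [e1, e2, e3, ← hr] at e4
    refine ⟨2 * g * k - 3 * (i + j), i * j - k ^ 2, ?_⟩
    have e5 : (((9 - g ^ 2 : ℤ) : ℚ) * r ^ 2 + (2 * g * k - 3 * (i + j) : ℤ) * r +
        (i * j - k ^ 2 : ℤ) : ℝ) = 0 := by
      push_cast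
      linear_combination -e4
    exact_mod_cast e5
  have h5 : ∃ z : ℤ, (z : ℚ) = 5 * r := by
    obtain ⟨B, C, h⟩ := hquad a b 2 (by
      unfold gm
      rw [if_neg hne, if_pos hab]
      norm_num)
    obtain ⟨z, hz⟩ := int_of_quad r 5 B C (by norm_num) (by
      norm_num at h ⊢
      exact h)
    exact ⟨z, by rw [hz]; norm_num⟩
  have h8 : ∃ z : ℤ, (z : ℚ) = 8 * r := by
    obtain ⟨B, C, h⟩ := hquad c d 1 (by
      unfold gm
      rw [if_neg hcd, if_neg hncd]
      norm_num)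
    obtain ⟨z, hz⟩ := int_of_quad r 8 B C (by norm_num) (by
      norm_num at h ⊢
      exact h)
    exact ⟨z, by rw [hz]; norm_num⟩
  obtain ⟨z5, hz5⟩ := h5
  obtain ⟨z8, hz8⟩ := h8
  have hrz : ((5 * z5 - 3 * z8 : ℤ) : ℚ) = r := by
    push_cast
    rw [hz5, hz8]
    ring
  have hθz : θ = ((5 * z5 - 3 * z8 : ℤ) : ℝ) := by
    rw [← hr, ← hrz]
    push_cast
    ring
  have hθpos : 0 < 5 * z5 - 3 * z8 := by
    have := D.θ_pos
    rw [hθz] at this
    exact_mod_cast this
  obtain ⟨t, ht⟩ := Int.eq_ofNat_of_zero_le hθpos.le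
  have hxz : x = ((3 * (n : ℤ) - m * (t : ℤ) : ℤ) : ℝ) := by
    have := D.tr
    rw [hθz, ht] at this
    push_cast at this ⊢
    linarith
  have hxpos : 0 < 3 * (n : ℤ) - m * (t : ℤ) := by
    have h1 : 0 < x := D.θ_pos.trans D.θ_lt
    rw [hxz] at h1
    exact_mod_cast h1
  obtain ⟨x', hx'⟩ := Int.eq_ofNat_of_zero_le hxpos.le
  refine ⟨t, x', ?_, ?_, hm⟩
  · rw [hθz, ht]
    simp
  · rw [hxz, hx']
    simp

end Pool.Agent.Helper18_TDE.H92
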